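import Pool.Agent.H.MP_abf1f1_an.G11
import Pool.Agent.H.MP_abf1f1_an.C2b
import Pool.Agent.H.MP_abf1f1_an.BrD
import Pool.Agent.H.MP_abf1f1_an.Fin2
import Pool.Agent.H.MP_abf1f1_an.Span

/-! MP_abf1f1_an: after one rescaling, all points of non-analyticity of the slope gap distribution
of a Veech surface lie in the trace field. -/

set_option autoImplicit false

open scoped Manifold ContDiff Topology
open MeasureTheory Set Filter

namespace Pool.Agent.Results.MP_abf1f1_an.GapField

open H37abf

variable {X : Type} [TopologicalSpace X] [ChartedSpace ℂ X] [IsManifold 𝓘(ℂ) ω X]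
  [T2Space X] [CompactSpace X] [ConnectedSpace X]

/-- The holonomy vectors of a Veech surface with at least one cone point form a `Core`. -/
theorem core_of_veech (Θ : HolForm X) (hne : ∃ x, x ∉ Θ.zeros) (hz : Θ.zeros.Nonempty)
    (hL : IsLattice Θ.veech) : Core Θ.veechGroup Θ.Lam where
  fin := by
    have h := (Θ.flat hne hz).lam_finite
    rw [Θ.flat_lam hne hz] at h
    exact h
  ne := by
    have h := (Θ.flat hne hz).zero_notMem_lam
    rw [Θ.flat_lam hne hz] at h
    exact h
  inv := fun _ hγ _ hv => Θ.act_lam hγ hv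
  span := by
    have h := (Θ.flat hne hz).span
    rw [Θ.flat_lam hne hz] at h
    exact h
  disc := discrete_of_lattice (Γ := Θ.veechGroup) hL
  cov := covol_of_lattice (Γ := Θ.veechGroup) hL

/-- For every Veech surface `(X, Θ)` (compact connected Riemann surface, nonzero holomorphic one-form, the
Veech group is a lattice) with trace field `K` there is `lam > 0` such that: if `f` is the slope gap
distribution, then `f` agrees almost everywhere on `(0, ∞)`, and at all of its points of continuity,
with a continuous function `g`, and every point `x₀ > 0` at which `g` is not real-analytic satisfies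
`lam x₀ ∈ K`. -/
theorem result (Θ : HolForm X) (hne : ∃ x, x ∉ Θ.zeros) (hL : IsLattice Θ.veech) :
    ∃ lam : ℝ, 0 < lam ∧ ∀ f : ℝ → ℝ, IsGapDist Θ.Lam f →
      ∃ g : ℝ → ℝ, ContinuousOn g (Ioi 0) ∧ (∀ᵐ x ∂volume.restrict (Ioi 0), g x = f x) ∧
        (∀ x : ℝ, 0 < x → ContinuousAt f x → g x = f x) ∧
        ∀ x₀ : ℝ, 0 < x₀ → ¬ AnalyticAt ℝ g x₀ → lam * x₀ ∈ Θ.traceField := by
  by_cases hz : Θ.zeros.Nonempty
  · have hc := core_of_veech Θ hne hz hL
    obtain ⟨lam, ⟨D⟩⟩ := hc.exists_cusps (K := Θ.traceField)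
      (fun γ hγ => Subfield.subset_closure ⟨γ, hγ, rfl⟩)
      (fun L hv => by
        have h := Flat.rat (Φ := Θ.flat hne hz) Θ.traceField L
        rw [Θ.flat_lam hne hz] at h
        exact h hv)
    exact ⟨lam, D.lam_pos, fun f hf => D.final_cont (hc.isGapDist_pr hf)⟩
  · refine ⟨1, one_pos, fun f hf => ?_⟩
    rw [Θ.lam_empty hz] at hf
    obtain ⟨g, h1, h2, h3⟩ := final_empty hf
    exact ⟨g, fun x _ => (h3 x).continuousAt.continuousWithinAt, h1, h2,
      fun x₀ _ h => absurd (h3 x₀) h⟩

end Pool.Agent.Results.MP_abf1f1_an.GapField
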